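import Pool.Agent.H397R2.PP.A

set_option autoImplicit false

/-!
# Multipartitions modulo 2: the identity with a power of the discriminant
-/

namespace Pool.Agent.H413R3.Part

open PowerSeries Pool.Agent.H397R2.PP

/-- the number of `t`-multipartitions of `n` -/
def mp (t n : ℕ) : ℕ :=
  ∑ x ∈ Finset.Nat.antidiagonalTuple t n, ∏ i, Fintype.card (Nat.Partition (x i))

theorem sum_antidiagonalTuple_succ (c : ℕ → ℕ) (t n : ℕ) :
    ∑ x ∈ Finset.Nat.antidiagonalTuple (t + 1) n, ∏ i, c (x i) =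
      ∑ ab ∈ Finset.HasAntidiagonal.antidiagonal n, c ab.1 *
        ∑ y ∈ Finset.Nat.antidiagonalTuple t ab.2, ∏ i, c (y i) := by
  simp_rw [Finset.mul_sum]
  rw [Finset.sum_sigma']
  symm
  refine Finset.sum_bij' (fun p _ => (Fin.cons p.1.1 p.2 : Fin (t + 1) → ℕ))
    (fun x _ => ⟨(x 0, ∑ i, Fin.tail x i), Fin.tail x⟩) ?_ ?_ ?_ ?_ ?_
  · rintro ⟨⟨a, b⟩, y⟩ h
    rw [Finset.mem_sigma, Finset.HasAntidiagonal.mem_antidiagonal, Finset.Nat.mem_antidiagonalTuple] at h
    simp only at h
    rw [Finset.Nat.mem_antidiagonalTuple, Fin.sum_univ_succ]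
    simp only [Fin.cons_zero, Fin.cons_succ]
    rw [h.2, h.1]
  · intro x h
    rw [Finset.Nat.mem_antidiagonalTuple, Fin.sum_univ_succ] at h
    rw [Finset.mem_sigma, Finset.HasAntidiagonal.mem_antidiagonal, Finset.Nat.mem_antidiagonalTuple]
    exact ⟨h, rfl⟩
  · rintro ⟨⟨a, b⟩, y⟩ h
    rw [Finset.mem_sigma, Finset.HasAntidiagonal.mem_antidiagonal, Finset.Nat.mem_antidiagonalTuple] at h
    simp only at h
    obtain ⟨h1, h2⟩ := h
    subst h2
    simp
  · intro x h
    simp
  · rintro ⟨⟨a, b⟩, y⟩ h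
    simp [Fin.prod_univ_succ]

theorem mp_succ (t n : ℕ) : mp (t + 1) n =
    ∑ ab ∈ Finset.HasAntidiagonal.antidiagonal n, Fintype.card (Nat.Partition ab.1) * mp t ab.2 :=
  sum_antidiagonalTuple_succ (fun n => Fintype.card (Nat.Partition n)) t n

theorem mp_zero (n : ℕ) : mp 0 n = if n = 0 then 1 else 0 := by
  rcases n with _ | n
  · simp [mp]
  · simp [mp]

theorem mp_one (n : ℕ) : mp 1 n = Fintype.card (Nat.Partition n) := by
  simp [mp]

theorem coeff_pow_eq (t n : ℕ) :
    coeff n ((PowerSeries.mk fun n => (Fintype.card (Nat.Partition n) : ZMod 2)) ^ t) =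
      (mp t n : ZMod 2) := by
  induction t generalizing n with
  | zero => rw [pow_zero, coeff_one, mp_zero]; split_ifs <;> simp
  | succ t ih =>
    rw [pow_succ', coeff_mul, mp_succ]
    push_cast
    refine Finset.sum_congr rfl fun ab _ => ?_
    rw [ih, coeff_mk]

/-- sum of the values of `g` at `n - M g_j`, modulo 2 -/
noncomputable def psumG (g : ℕ → ℕ) (M n : ℕ) : ZMod 2 :=
  ∑ j ∈ Finset.Icc (-(n : ℤ)) n,
      if M * pentagonal j ≤ n then (g (n - M * pentagonal j) : ZMod 2) else 0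

theorem identity (t m e n : ℕ) (hm : 3 * m + t = 2 ^ e) :
    psumG (mp t) (2 ^ e) n = coeff (8 * n + m) (Db ^ m) := by
  unfold psumG
  have hM : (2 ^ e : ℕ) ≠ 0 := by positivity
  set M : ℕ := 2 ^ e with hMdef
  set F : (ZMod 2)⟦X⟧ := PowerSeries.mk fun n => (Fintype.card (Nat.Partition n) : ZMod 2)
    with hF
  set f : (ZMod 2)⟦X⟧ := pentagonalSeries (ZMod 2) with hf
  have hFf : F * f = 1 := mk_card_mul_pentagonalSeries (ZMod 2)
  -- right-hand side
  have hR : coeff (8 * n + m) (Db ^ m) = coeff n (f ^ (3 * m)) := by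
    have h1 : Db ^ m = X ^ m * PowerSeries.expand 8 (by norm_num) (f ^ (3 * m)) := by
      rw [← pow_eq_expand' 8 3 (by norm_num) (by norm_num), Db, mul_pow, ← pow_mul, ← pow_mul]
      congr 2
      ring
    rw [h1, coeff_X_pow_mul, coeff_expand_mul]
  rw [hR]
  have h2 : f ^ (3 * m) = F ^ t * PowerSeries.expand M hM f := by
    rw [← pow_eq_expand' M e hM hMdef, ← hm, pow_add, mul_comm (f ^ (3 * m)), ← mul_assoc,
      ← mul_pow, hFf, one_pow, one_mul]
  rw [h2, coeff_mul]
  rw [Finset.sum_congr rfl (g := fun p : ℕ × ℕ => ∑ j ∈ Finset.Icc (-(n : ℤ)) n,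
    if p.2 = M * pentagonal j then coeff p.1 (F ^ t) else 0)]
  · rw [Finset.sum_comm]
    refine Finset.sum_congr rfl fun j _ => ?_
    split_ifs with hj
    · rw [Finset.sum_eq_single (n - M * pentagonal j, M * pentagonal j)]
      · rw [if_pos rfl, hF, coeff_pow_eq]
      · rintro ⟨a, b⟩ hab hne
        rw [if_neg]
        intro hb
        apply hne
        rw [Finset.HasAntidiagonal.mem_antidiagonal] at hab
        simp only at hb hab
        ext <;> simp <;> omega
      · intro h
        exact absurd (Finset.HasAntidiagonal.mem_antidiagonal.mpr (Nat.sub_add_cancel hj)) h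
    · symm
      apply Finset.sum_eq_zero
      rintro ⟨a, b⟩ hab
      rw [Finset.HasAntidiagonal.mem_antidiagonal] at hab
      rw [if_neg]
      intro hb
      simp only at hb hab
      omega
  · rintro ⟨a, b⟩ hab
    rw [Finset.HasAntidiagonal.mem_antidiagonal] at hab
    simp only at hab ⊢
    rw [coeff_expand_pent M hM n b (by omega), Finset.mul_sum]
    refine Finset.sum_congr rfl fun j _ => ?_
    split_ifs <;> simp

end Pool.Agent.H413R3.Part
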