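import Pool.Agent.H397R2.PP.D5
import Pool.Agent.H413R3.Part.Pt

set_option autoImplicit false

/-!
# The counting argument in a residue class modulo a power of two
-/

namespace Pool.Agent.H413R3.Part

open PowerSeries Pool.Agent.H397R2.PP

/-- the integers `n ≤ x` in the class of `ρ` modulo `2 ^ b` with `g n` even -/
def evenAP (g : ℕ → ℕ) (b ρ x : ℕ) : Finset ℕ :=
  (Finset.range (x + 1)).filter (fun n => n % 2 ^ b = ρ % 2 ^ b ∧ Even (g n))

theorem psumG_of_odd (g : ℕ → ℕ) (M n : ℕ)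
    (h : ∀ j : ℤ, M * pentagonal j ≤ n → ¬ Even (g (n - M * pentagonal j))) :
    psumG g M n = ((cntS M n).card : ZMod 2) := by
  unfold psumG
  rw [← Finset.sum_filter]
  have : ∀ j ∈ (Finset.Icc (-(n : ℤ)) n).filter (fun j => M * pentagonal j ≤ n),
      (g (n - M * pentagonal j) : ZMod 2) = 1 := by
    intro j hj
    have := h j (Finset.mem_filter.mp hj).2
    rw [Nat.not_even_iff_odd] at this
    exact (ZMod.natCast_eq_one_iff_odd).mpr this
  rw [Finset.sum_congr rfl this]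
  simp [cntS]

/-- number of `j` with `3^a ∣ 8 (e + M g_j) + m`. -/
theorem card_hits3_le' (i M m J a e : ℕ) (hMi : M = 2 ^ i) :
    (((Finset.Icc (-(J : ℤ)) J).filter
      (fun j => 3 ^ a ∣ 8 * (e + M * pentagonal j) + m)).card : ℝ)
      ≤ (2 * J + 1) / 3 ^ a + 1 := by
  classical
  set S := (Finset.Icc (-(J : ℤ)) J).filter
      (fun j => 3 ^ a ∣ 8 * (e + M * pentagonal j) + m) with hS
  rcases S.eq_empty_or_nonempty with h0 | ⟨j0, hj0⟩
  · rw [h0]; simp; positivity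
  have hsub : S ⊆ (Finset.Icc (-(J : ℤ)) J).filter (fun j => ((3 ^ a : ℕ) : ℤ) ∣ j - j0) := by
    intro j hj
    rw [hS, Finset.mem_filter] at hj hj0
    rw [Finset.mem_filter]
    refine ⟨hj.1, ?_⟩
    have d1 : (((3 ^ a : ℕ) : ℕ) : ℤ) ∣ ((8 * (e + M * pentagonal j) + m : ℕ) : ℤ) :=
      Int.natCast_dvd_natCast.mpr hj.2
    have d0 : (((3 ^ a : ℕ) : ℕ) : ℤ) ∣ ((8 * (e + M * pentagonal j0) + m : ℕ) : ℤ) :=
      Int.natCast_dvd_natCast.mpr hj0.2
    have hd := dvd_sub d1 d0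
    have e1 := two_mul_natCast_pentagonal j
    have e0 := two_mul_natCast_pentagonal j0
    have h1 : ((8 * (e + M * pentagonal j) + m : ℕ) : ℤ)
        - ((8 * (e + M * pentagonal j0) + m : ℕ) : ℤ)
        = (2 ^ (i + 2) * (3 * (j + j0) - 1)) * (j - j0) := by
      subst hMi
      push_cast
      linear_combination (4 * 2 ^ i : ℤ) * e1 - (4 * 2 ^ i : ℤ) * e0
    rw [h1] at hd
    refine IsCoprime.dvd_of_dvd_mul_left ?_ hd
    push_cast
    apply IsCoprime.pow_left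
    apply IsCoprime.mul_right
    · apply IsCoprime.pow_right
      exact ⟨1, -1, by norm_num⟩
    · exact ⟨j + j0, -1, by ring⟩
  have hc := Finset.card_le_card hsub
  have g1 := card_class_le J (3 ^ a) (by positivity) j0
  have hc3 : (S.card : ℝ) ≤
      (((Finset.Icc (-(J : ℤ)) J).filter (fun j => ((3 ^ a : ℕ) : ℤ) ∣ j - j0)).card : ℝ) := by
    exact_mod_cast hc
  refine hc3.trans (g1.trans ?_)
  push_cast
  exact le_rfl

/-- a residue class modulo `3 q`, `q` a power of two, given by its residues modulo `q` and `3` -/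
theorem exists_class (q c d : ℕ) (hq : Nat.Coprime q 3) :
    ∃ z, z < 3 * q ∧ z % q = c % q ∧ z % 3 = d % 3 := by
  obtain ⟨z, hz1, hz2⟩ := Nat.chineseRemainder hq c d
  have hq0 : 0 < q := by
    rcases Nat.eq_zero_or_pos q with h | h
    · rw [h] at hq; norm_num at hq
    · exact h
  refine ⟨z % (3 * q), Nat.mod_lt _ (by omega), ?_, ?_⟩
  · rw [Nat.mod_mod_of_dvd _ (dvd_mul_left q 3)]; exact hz1
  · rw [Nat.mod_mod_of_dvd _ (dvd_mul_right 3 q)]; exact hz2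

/-- the `r` with `r ≡ c (q)`, `3 ∤ r` in an interval. -/
theorem card_classes_ge' (q c N : ℕ) (hq : Nat.Coprime q 3) (r1 r2 : ℝ) (h0 : 0 ≤ r1)
    (h2 : r2 ≤ N) :
    2 * (r2 - r1) / (3 * q) - 2 ≤
      (((Finset.range N).filter
        (fun r : ℕ => (r % q = c % q ∧ r % 3 ≠ 0) ∧ r1 ≤ r ∧ (r : ℝ) < r2)).card : ℝ) := by
  obtain ⟨z1, y1, u1, v1⟩ := exists_class q c 1 hq
  obtain ⟨z2, y2, u2, v2⟩ := exists_class q c 2 hq
  have a1 := card_AP24_ge (3 * q) z1 N y1 r1 r2 h0 h2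
  have a2 := card_AP24_ge (3 * q) z2 N y2 r1 r2 h0 h2
  have key : ∀ r z : ℕ, r % (3 * q) = z → r % q = z % q ∧ r % 3 = z % 3 := by
    intro r z h
    constructor
    · rw [← h, Nat.mod_mod_of_dvd _ (dvd_mul_left q 3)]
    · rw [← h, Nat.mod_mod_of_dvd _ (dvd_mul_right 3 q)]
  have hd : Disjoint
      ((Finset.range N).filter (fun r : ℕ => r % (3 * q) = z1 ∧ r1 ≤ r ∧ (r : ℝ) < r2))
      ((Finset.range N).filter (fun r : ℕ => r % (3 * q) = z2 ∧ r1 ≤ r ∧ (r : ℝ) < r2)) := by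
    rw [Finset.disjoint_left]
    intro r h h'
    rw [Finset.mem_filter] at h h'
    have := h.2.1; have := h'.2.1
    omega
  have hsub := Finset.card_le_card (Finset.union_subset
    (s := (Finset.range N).filter (fun r : ℕ => r % (3 * q) = z1 ∧ r1 ≤ r ∧ (r : ℝ) < r2))
    (t := (Finset.range N).filter (fun r : ℕ => r % (3 * q) = z2 ∧ r1 ≤ r ∧ (r : ℝ) < r2))
    (u := (Finset.range N).filter
        (fun r : ℕ => (r % q = c % q ∧ r % 3 ≠ 0) ∧ r1 ≤ r ∧ (r : ℝ) < r2))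
    (by
      intro r h
      rw [Finset.mem_filter] at h ⊢
      obtain ⟨g1, g2⟩ := key r z1 h.2.1
      exact ⟨h.1, ⟨g1.trans u1, by omega⟩, h.2.2⟩)
    (by
      intro r h
      rw [Finset.mem_filter] at h ⊢
      obtain ⟨g1, g2⟩ := key r z2 h.2.1
      exact ⟨h.1, ⟨g1.trans u2, by omega⟩, h.2.2⟩))
  rw [Finset.card_union_of_disjoint hd] at hsub
  have h3 := (Nat.cast_le (α := ℝ)).mpr hsub
  rw [Nat.cast_add] at h3
  refine le_trans ?_ h3
  push_cast at a1 a2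
  have e : 2 * (r2 - r1) / (3 * q) = (r2 - r1) / (3 * q) + (r2 - r1) / (3 * q) := by ring
  rw [e]
  linarith

/-- the set of good `r` -/
noncomputable def goodR' (t M P q c N l : ℕ) : Finset ℕ :=
  (Finset.range N).filter (fun r : ℕ => (r % q = c % q ∧ r % 3 ≠ 0) ∧
    ((M : ℝ) * (6 * l + 1) ^ 2 - t) / (3 * P) ≤ r ∧
      (r : ℝ) < ((M : ℝ) * (6 * l + 5) ^ 2 - t) / (3 * P))

theorem mem_goodR' (t M P q c N l r : ℕ) (hP : 0 < P) : r ∈ goodR' t M P q c N l ↔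
    r < N ∧ (r % q = c % q ∧ r % 3 ≠ 0) ∧ M * (6 * l + 1) ^ 2 ≤ 3 * (P * r) + t ∧
      3 * (P * r) + t < M * (6 * l + 5) ^ 2 := by
  have hPR : (0 : ℝ) < P := by exact_mod_cast hP
  unfold goodR'
  rw [Finset.mem_filter, Finset.mem_range, div_le_iff₀ (by positivity), lt_div_iff₀ (by positivity)]
  have e1 : ((M : ℝ) * (6 * l + 1) ^ 2 - t ≤ r * (3 * P)) ↔
      M * (6 * l + 1) ^ 2 ≤ 3 * (P * r) + t := by
    rw [sub_le_iff_le_add, show (r : ℝ) * (3 * P) + t = ((3 * (P * r) + t : ℕ) : ℝ) by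
      push_cast; ring, show (M : ℝ) * (6 * l + 1) ^ 2 = ((M * (6 * l + 1) ^ 2 : ℕ) : ℝ) by
      push_cast; ring, Nat.cast_le]
  have e2 : ((r : ℝ) * (3 * P) < (M : ℝ) * (6 * l + 5) ^ 2 - t) ↔
      3 * (P * r) + t < M * (6 * l + 5) ^ 2 := by
    rw [lt_sub_iff_add_lt, show (r : ℝ) * (3 * P) + t = ((3 * (P * r) + t : ℕ) : ℝ) by
      push_cast; ring, show (M : ℝ) * (6 * l + 5) ^ 2 = ((M * (6 * l + 5) ^ 2 : ℕ) : ℝ) by
      push_cast; ring, Nat.cast_lt]
  rw [e1, e2]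

theorem card_goodR' (t M P q c N l : ℕ) (hM : t ≤ M) (hP : 0 < P) (hq : Nat.Coprime q 3)
    (hq0 : 0 < q) (hN : M * (6 * l + 5) ^ 2 ≤ 3 * (P * N)) :
    16 * (M : ℝ) * (2 * l + 1) / (3 * P * q) - 2 ≤ ((goodR' t M P q c N l).card : ℝ) := by
  have hPR : (0 : ℝ) < P := by exact_mod_cast hP
  have hqR : (0 : ℝ) < q := by exact_mod_cast hq0
  have hMR : (t : ℝ) ≤ M := by exact_mod_cast hM
  have ht : (0 : ℝ) ≤ t := by positivity
  have hl : (0 : ℝ) ≤ l := by positivity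
  have h := card_classes_ge' q c N hq (((M : ℝ) * (6 * l + 1) ^ 2 - t) / (3 * P))
    (((M : ℝ) * (6 * l + 5) ^ 2 - t) / (3 * P))
    (by
      apply div_nonneg _ (by positivity)
      have h1 : (1 : ℝ) ≤ (6 * l + 1) ^ 2 := by nlinarith
      have h2 : (M : ℝ) * 1 ≤ M * (6 * l + 1) ^ 2 :=
        mul_le_mul_of_nonneg_left h1 (by positivity)
      linarith)
    (by
      rw [div_le_iff₀ (by positivity)]
      have : ((M * (6 * l + 5) ^ 2 : ℕ) : ℝ) ≤ ((3 * (P * N) : ℕ) : ℝ) := by exact_mod_cast hN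
      push_cast at this
      linarith)
  refine le_trans (le_of_eq ?_) h
  field_simp
  ring

theorem exists_res (P q w : ℕ) (hPq : Nat.Coprime P q) (hq : 1 < q) :
    ∃ c, (P * c) % q = w % q := by
  obtain ⟨u, -, hu⟩ := Nat.exists_mul_mod_eq_one_of_coprime hPq hq
  exact ⟨u * w, by rw [← mul_assoc, Nat.mul_mod, hu, one_mul, Nat.mod_mod]⟩

end Pool.Agent.H413R3.Part
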