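import Pool.Agent.H413R3.Part.Count

set_option autoImplicit false

namespace Pool.Agent.H413R3.Part

open PowerSeries Pool.Agent.H397R2.PP

/-- The counting argument. -/
theorem count_evenG (g : ℕ → ℕ) (t i M m a b ρ x L : ℕ) (hMi : M = 2 ^ i) (hbi : b ≤ i)
    (hm : 3 * m + t = M)
    (hid : ∀ n, psumG g M n = coeff (8 * n + m) (Db ^ m))
    (hvan : ∀ r, ¬ 3 ∣ r → coeff (3 ^ a * r) (Db ^ m) = 0)
    (hL : L = Nat.sqrt (2 * x / (3 * M))) :
    2 * (M : ℝ) * L ^ 2 / (3 * 3 ^ a * 2 ^ b) - 2 * L ≤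
      ((evenAP g b ρ x).card : ℝ) * ((2 * L + 3) / 3 ^ a + 1) := by
  classical
  set P := 3 ^ a with hP
  have hM1 : 1 ≤ M := by rw [hMi]; exact Nat.one_le_pow _ _ (by norm_num)
  have hP1 : 1 ≤ P := Nat.one_le_pow _ _ (by norm_num)
  set q := 8 * 2 ^ b with hq
  have hq0 : 0 < q := by positivity
  have hq1 : 1 < q := by
    have : 1 ≤ 2 ^ b := Nat.one_le_two_pow
    omega
  have hqpow : q = 2 ^ (b + 3) := by rw [hq, pow_add]; ring
  have hq3 : Nat.Coprime q 3 := by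
    rw [hqpow]; exact Nat.Coprime.pow_left _ (by norm_num)
  have hPq : Nat.Coprime P q := by
    rw [hP, hqpow]; exact Nat.Coprime.pow _ _ (by norm_num)
  obtain ⟨c, hc⟩ := exists_res P q (8 * ρ + m) hPq hq1
  have hLsq : 3 * M * (L * L) ≤ 2 * x := by
    have h1 : L * L ≤ 2 * x / (3 * M) := by rw [hL]; exact Nat.sqrt_le _
    calc 3 * M * (L * L) ≤ 3 * M * (2 * x / (3 * M)) := Nat.mul_le_mul_left _ h1
      _ ≤ 2 * x := Nat.mul_div_le _ _
  have hLsq2 : 2 * x < 3 * M * ((L + 1) * (L + 1)) := by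
    have h1 : 2 * x / (3 * M) < (L + 1) * (L + 1) := by rw [hL]; exact Nat.lt_succ_sqrt _
    rw [Nat.div_lt_iff_lt_mul (by positivity)] at h1
    calc 2 * x < (L + 1) * (L + 1) * (3 * M) := h1
      _ = 3 * M * ((L + 1) * (L + 1)) := by ring
  set N := M * (6 * L + 5) ^ 2 with hN
  set R := (Finset.range L).biUnion (fun l => goodR' t M P q c N l) with hR
  -- lower bound
  have hdisj : ((Finset.range L : Finset ℕ) : Set ℕ).PairwiseDisjoint
      (fun l => goodR' t M P q c N l) := by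
    intro l _ l' _ hne
    rw [Function.onFun, Finset.disjoint_left]
    intro r h h'
    rw [mem_goodR' _ _ _ _ _ _ _ _ hP1] at h h'
    have key : ∀ u v : ℕ, u < v → M * (6 * v + 1) ^ 2 ≤ 3 * (P * r) + t →
        3 * (P * r) + t < M * (6 * u + 5) ^ 2 → False := by
      intro u v huv h5 h6
      have h7 : M * (6 * v + 1) ^ 2 < M * (6 * u + 5) ^ 2 := lt_of_le_of_lt h5 h6
      have h8 : (6 * v + 1) ^ 2 < (6 * u + 5) ^ 2 := lt_of_mul_lt_mul_left h7 (by omega)
      have h9 : 6 * v + 1 < 6 * u + 5 := lt_of_pow_lt_pow_left₀ 2 (by omega) h8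
      omega
    rcases lt_or_gt_of_ne hne with h1 | h1
    · exact key l l' h1 h'.2.2.1 h.2.2.2
    · exact key l' l h1 h.2.2.1 h'.2.2.2
  have hlow : 2 * (M : ℝ) * L ^ 2 / (3 * P * 2 ^ b) - 2 * L ≤ (R.card : ℝ) := by
    rw [hR, Finset.card_biUnion hdisj]
    push_cast
    have h1 : ∑ l ∈ Finset.range L, (16 * (M : ℝ) * (2 * l + 1) / (3 * P * q) - 2) ≤
        ∑ l ∈ Finset.range L, ((goodR' t M P q c N l).card : ℝ) := by
      refine Finset.sum_le_sum fun l hl => card_goodR' t M P q c N l (by omega) hP1 hq3 hq0 ?_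
      have hl' := Finset.mem_range.mp hl
      have : M * (6 * l + 5) ^ 2 ≤ N :=
        Nat.mul_le_mul_left _ (Nat.pow_le_pow_left (by omega) 2)
      calc M * (6 * l + 5) ^ 2 ≤ N := this
        _ ≤ P * N := Nat.le_mul_of_pos_left _ hP1
        _ ≤ 3 * (P * N) := by omega
    refine le_trans (le_of_eq ?_) h1
    have h2 : ∀ T : ℕ, ∑ l ∈ Finset.range T, (16 * (M : ℝ) * (2 * l + 1) / (3 * P * q) - 2) =
        2 * (M : ℝ) * T ^ 2 / (3 * P * 2 ^ b) - 2 * T := by
      intro T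
      have hqR : (q : ℝ) = 8 * 2 ^ b := by rw [hq]; push_cast; ring
      rw [hqR]
      have hPR : (0 : ℝ) < P := by exact_mod_cast hP1
      induction T with
      | zero => simp
      | succ T ih =>
        rw [Finset.sum_range_succ, ih]
        push_cast
        field_simp
        ring
    exact (h2 L).symm
  -- upper bound
  set H : ℕ → Finset ℤ := fun e => (Finset.Icc (-((L + 1 : ℕ) : ℤ)) ((L + 1 : ℕ) : ℤ)).filter
      (fun j => 3 ^ a ∣ 8 * (e + M * pentagonal j) + m) with hH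
  have hsub : R ⊆ (evenAP g b ρ x).biUnion
      (fun e => (H e).image (fun j => (8 * (e + M * pentagonal j) + m) / P)) := by
    intro r hr
    obtain ⟨l, hl, hrl⟩ := Finset.mem_biUnion.mp hr
    rw [mem_goodR' _ _ _ _ _ _ _ _ hP1] at hrl
    obtain ⟨_, ⟨hr8, hr3⟩, hA, hB⟩ := hrl
    have hlL := Finset.mem_range.mp hl
    have g1 : (P * r) % q = (8 * ρ + m) % q := by
      rw [← hc, Nat.mul_mod, hr8, ← Nat.mul_mod]
    have hlow' : 3 * m + t ≤ 3 * (P * r) + t := by
      have : M * 1 ≤ M * (6 * l + 1) ^ 2 :=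
        Nat.mul_le_mul_left _ (Nat.one_le_pow _ _ (by omega))
      omega
    have g2 : (P * r) % 8 = m % 8 := by
      have h1 : (P * r) % q % 8 = (8 * ρ + m) % q % 8 := by rw [g1]
      rw [Nat.mod_mod_of_dvd _ (dvd_mul_right 8 (2 ^ b)),
        Nat.mod_mod_of_dvd _ (dvd_mul_right 8 (2 ^ b))] at h1
      omega
    obtain ⟨n, hn⟩ : ∃ n, P * r = 8 * n + m := ⟨(P * r - m) / 8, by omega⟩
    have hnρ : n % 2 ^ b = ρ % 2 ^ b := by
      rw [hn] at g1
      have h1 : 8 * n + m ≡ 8 * ρ + m [MOD 8 * 2 ^ b] := g1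
      have h2 : 8 * n ≡ 8 * ρ [MOD 8 * 2 ^ b] := Nat.ModEq.add_right_cancel' m h1
      exact Nat.ModEq.mul_left_cancel' (by norm_num) h2
    have en : 3 * (P * r) + t = 24 * n + M := by omega
    rw [en] at hA hB
    have hcnt := cnt_odd M n l hM1 hA hB
    have hzero : psumG g M n = 0 := by
      rw [hid n, ← hn]; exact hvan r (by omega)
    have hex : ∃ j : ℤ, M * pentagonal j ≤ n ∧ Even (g (n - M * pentagonal j)) := by
      by_contra hcon
      push Not at hcon
      rw [psumG_of_odd g M n hcon, hcnt] at hzero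
      have : ((2 * l + 1 : ℕ) : ZMod 2) = 1 :=
        (ZMod.natCast_eq_one_iff_odd).mpr (odd_two_mul_add_one l)
      rw [this] at hzero
      exact absurd hzero (by decide)
    obtain ⟨j, hj1, hj2⟩ := hex
    have hnx : n ≤ x := by
      have h1 : M * (6 * l + 5) ^ 2 ≤ M * (6 * L) ^ 2 :=
        Nat.mul_le_mul_left _ (Nat.pow_le_pow_left (by omega) 2)
      have h2 : M * (6 * L) ^ 2 = 12 * (3 * M * (L * L)) := by ring
      omega
    have hjL : j ∈ Finset.Icc (-((L + 1 : ℕ) : ℤ)) ((L + 1 : ℕ) : ℤ) := by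
      have h1 := two_mul_natCast_pentagonal j
      have h2 : (2 : ℤ) * (M * pentagonal j) < 3 * M * ((L + 1) * (L + 1)) := by
        exact_mod_cast (by omega : 2 * (M * pentagonal j) < 3 * M * ((L + 1) * (L + 1)))
      have h3 : (2 : ℤ) * pentagonal j < 3 * ((L + 1) * (L + 1)) := by
        have hMZ : (0 : ℤ) < M := by exact_mod_cast hM1
        have : (M : ℤ) * (2 * pentagonal j) < M * (3 * ((L + 1) * (L + 1))) := by linarith
        exact lt_of_mul_lt_mul_left this hMZ.le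
      rw [h1] at h3
      rw [Finset.mem_Icc]
      push_cast
      exact jbound j L h3
    have hmod : (n - M * pentagonal j) % 2 ^ b = ρ % 2 ^ b := by
      rw [← hnρ]
      have hdvd : 2 ^ b ∣ M * pentagonal j := by
        rw [hMi]
        exact Dvd.dvd.mul_right (pow_dvd_pow 2 hbi) _
      exact (Nat.modEq_iff_dvd' (Nat.sub_le _ _)).mpr (by
        rw [Nat.sub_sub_self hj1]; exact hdvd)
    refine Finset.mem_biUnion.mpr ⟨n - M * pentagonal j, ?_, Finset.mem_image.mpr ⟨j, ?_, ?_⟩⟩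
    · unfold evenAP
      rw [Finset.mem_filter, Finset.mem_range]; exact ⟨by omega, hmod, hj2⟩
    · rw [Finset.mem_filter]
      refine ⟨hjL, r, ?_⟩
      rw [← hP, Nat.sub_add_cancel hj1, ← hn]
    · rw [Nat.sub_add_cancel hj1, ← hn]
      exact Nat.mul_div_cancel_left _ hP1
  have h1 := (Finset.card_le_card hsub).trans Finset.card_biUnion_le
  have h2 : ∀ e ∈ evenAP g b ρ x,
      ((((H e).image (fun j => (8 * (e + M * pentagonal j) + m) / P)).card : ℕ) : ℝ) ≤
      (2 * L + 3) / 3 ^ a + 1 := by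
    intro e _
    have g1 := card_hits3_le' i M m (L + 1) a e hMi
    have g3 : (((H e).image (fun j => (8 * (e + M * pentagonal j) + m) / P)).card : ℝ) ≤
        ((H e).card : ℝ) := by exact_mod_cast Finset.card_image_le
    refine g3.trans (g1.trans (le_of_eq ?_))
    push_cast; ring
  have h3 : (R.card : ℝ) ≤ ∑ e ∈ evenAP g b ρ x,
      ((((H e).image (fun j => (8 * (e + M * pentagonal j) + m) / P)).card : ℕ) : ℝ) := by
    exact_mod_cast h1
  have h4 := h3.trans (Finset.sum_le_sum h2)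
  rw [Finset.sum_const, nsmul_eq_mul] at h4
  refine le_trans (le_of_eq ?_) (hlow.trans h4)
  rw [hP]; push_cast; ring

/-- the bound coming from a given `M`. -/
theorem large_boundG (g : ℕ → ℕ) (t i M m a b ρ x L : ℕ) (hMi : M = 2 ^ i) (hbi : b ≤ i)
    (hm : 3 * m + t = M)
    (hid : ∀ n, psumG g M n = coeff (8 * n + m) (Db ^ m))
    (ha : 1 ≤ a)
    (hvan : ∀ r, ¬ 3 ∣ r → coeff (3 ^ a * r) (Db ^ m) = 0)
    (hL : L = Nat.sqrt (2 * x / (3 * M))) (hcond : 10 * 3 ^ a ≤ L) :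
    0.167 * Real.sqrt M * Real.sqrt x / 2 ^ b ≤ (evenAP g b ρ x).card := by
  have h := count_evenG g t i M m a b ρ x L hMi hbi hm hid hvan hL
  have hP3 : (3 : ℝ) ≤ 3 ^ a := by
    calc (3 : ℝ) = 3 ^ 1 := by norm_num
      _ ≤ 3 ^ a := pow_le_pow_right₀ (by norm_num) ha
  have hcR : 10 * (3 : ℝ) ^ a ≤ L := by exact_mod_cast hcond
  have hM1 : 1 ≤ M := by rw [hMi]; exact Nat.one_le_pow _ _ (by norm_num)
  have hLsq2 : 2 * x < 3 * M * ((L + 1) * (L + 1)) := by
    have h1 : 2 * x / (3 * M) < (L + 1) * (L + 1) := by rw [hL]; exact Nat.lt_succ_sqrt _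
    rw [Nat.div_lt_iff_lt_mul (by positivity)] at h1
    calc 2 * x < (L + 1) * (L + 1) * (3 * M) := h1
      _ = 3 * M * ((L + 1) * (L + 1)) := by ring
  set P : ℝ := 3 ^ a with hP
  have hPpos : 0 < P := by linarith
  set Q : ℝ := 2 ^ b with hQ
  have hQ1 : (1 : ℝ) ≤ Q := one_le_pow₀ (by norm_num)
  have hMQ : Q ≤ M := by
    rw [hMi, hQ]; push_cast
    exact pow_le_pow_right₀ (by norm_num) hbi
  set r : ℝ := Real.sqrt M with hr
  have hr0 : 0 ≤ r := Real.sqrt_nonneg _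
  have hr2 : r ^ 2 = M := Real.sq_sqrt (by positivity)
  have hr1 : 1 ≤ r := by
    rw [hr, Real.one_le_sqrt]; exact_mod_cast hM1
  have hs := sqrt_le_of x L r hr0 (by
    have : ((2 * x : ℕ) : ℝ) ≤ ((3 * M * ((L + 1) * (L + 1)) : ℕ) : ℝ) := by
      exact_mod_cast hLsq2.le
    push_cast at this
    rw [hr2]
    linarith)
  have hL30 : (30 : ℝ) ≤ L := by linarith
  have hE : (0 : ℝ) ≤ (evenAP g b ρ x).card := by positivity
  set E : ℝ := ((evenAP g b ρ x).card : ℝ) with hEdef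
  -- multiply by P
  have h1 : 2 * M * L ^ 2 / (3 * Q) - 2 * L * P ≤ E * (2 * L + 3 + P) := by
    have h2 := mul_le_mul_of_nonneg_right h hPpos.le
    have e1 : (2 * (M : ℝ) * L ^ 2 / (3 * P * Q) - 2 * L) * P = 2 * M * L ^ 2 / (3 * Q) - 2 * L * P := by
      field_simp
    have e2 : E * ((2 * L + 3) / P + 1) * P = E * (2 * L + 3 + P) := by
      field_simp
    rw [e1, e2] at h2
    exact h2
  have h3 : E * (2 * L + 3 + P) ≤ E * (2.2 * L) := by
    apply mul_le_mul_of_nonneg_left _ hE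
    linarith
  -- `Y = M / Q ≥ 1`
  set Y : ℝ := M / Q with hY
  have hY1 : 1 ≤ Y := by rw [hY, le_div_iff₀ (by linarith)]; linarith
  have e3 : 2 * (M : ℝ) * L ^ 2 / (3 * Q) = 2 / 3 * Y * L ^ 2 := by
    rw [hY]; field_simp
  rw [e3] at h1
  have h4 : 2 * L * P ≤ 0.2 * Y * L ^ 2 := by
    have h41 : 2 * L * P ≤ 0.2 * (L : ℝ) ^ 2 := by nlinarith
    have h42 : 0.2 * (L : ℝ) ^ 2 * 1 ≤ 0.2 * (L : ℝ) ^ 2 * Y :=
      mul_le_mul_of_nonneg_left hY1 (by positivity)
    linarith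
  have h5 : 0.212 * Y * L * L ≤ E * L := by nlinarith
  have h6 : 0.212 * Y * L ≤ E := le_of_mul_le_mul_right h5 (by linarith)
  refine le_trans ?_ h6
  have h7 : r * Real.sqrt x ≤ r * (1.2248 * r * (L + 1)) :=
    mul_le_mul_of_nonneg_left hs hr0
  have h8 : r * (1.2248 * r * ((L : ℝ) + 1)) = 1.2248 * M * (L + 1) := by
    rw [← hr2]; ring
  rw [h8] at h7
  have h9 : (M : ℝ) * ((L : ℝ) + 1) ≤ M * ((31 / 30) * L) := by
    apply mul_le_mul_of_nonneg_left _ (by positivity)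
    linarith
  have h10 : 0.167 * r * Real.sqrt x ≤ 0.212 * M * L := by nlinarith
  calc 0.167 * r * Real.sqrt x / Q ≤ 0.212 * M * L / Q :=
        div_le_div_of_nonneg_right h10 (by linarith)
    _ = 0.212 * Y * L := by rw [hY]; ring

end Pool.Agent.H413R3.Part
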