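import Pool.Agent.H413R3.Part.Sel

set_option autoImplicit false

/-!
# Even values of the partition function in progressions modulo powers of two
-/

namespace Pool.Agent.H413R3.Part

open PowerSeries Pool.Agent.H397R2.PP

/-- the number of partitions -/
def pp (n : ℕ) : ℕ := Fintype.card (Nat.Partition n)

theorem psumG_pp (M n : ℕ) : psumG pp M n = psum M n := rfl

theorem even_values_AP (x b ρ : ℕ) (hx : 2 ^ 15 ≤ x)
    (hb : 17 * (2 : ℝ) ^ b ≤ Real.log x ^ 2) :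
    Real.sqrt x * Real.log x / (25 * 2 ^ b) ≤ ((evenAP pp b ρ x).card : ℝ) := by
  have hc2 : 10 * 3 ^ (2 ^ (2 - 1) - 1) ≤ Nat.sqrt (2 * x / (3 * 4 ^ 2)) := by
    rw [Nat.le_sqrt', Nat.le_div_iff_mul_le (by positivity)]
    norm_num
    omega
  -- maximal k
  have hex : ∃ k, 2 < k ∧ ¬ (10 * 3 ^ (2 ^ (k - 1) - 1) ≤ Nat.sqrt (2 * x / (3 * 4 ^ k))) := by
    refine ⟨x + 3, by omega, ?_⟩
    push Not
    have h1 : 2 * x / (3 * 4 ^ (x + 3)) = 0 := by
      apply Nat.div_eq_of_lt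
      have h2 : x + 3 < 4 ^ (x + 3) := Nat.lt_pow_self (by norm_num)
      omega
    rw [h1]; simp
  classical
  obtain ⟨hk2, hkf⟩ := Nat.find_spec hex
  have hmin := fun j (hj : j < Nat.find hex) => Nat.find_min hex hj
  set k1 := Nat.find hex with hk1
  obtain ⟨K, hK⟩ : ∃ K, k1 = K + 1 := ⟨k1 - 1, by omega⟩
  rw [hK] at hkf hk2 hmin
  have hK2 : 2 ≤ K := by omega
  have hcK : 10 * 3 ^ (2 ^ (K - 1) - 1) ≤ Nat.sqrt (2 * x / (3 * 4 ^ K)) := by
    rcases Nat.eq_or_lt_of_le hK2 with h | h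
    · rw [← h]; exact hc2
    · have := hmin K (by omega)
      by_contra hcon
      exact this ⟨h, hcon⟩
  obtain ⟨m, hm⟩ : ∃ m, 3 * m + 1 = 4 ^ K := by
    have h1 : 4 ^ K % 3 = 1 := by rw [Nat.pow_mod]; simp
    have h2 := Nat.div_add_mod (4 ^ K) 3
    rw [h1] at h2
    exact ⟨4 ^ K / 3, h2⟩
  have ha : 1 ≤ 2 ^ (K - 1) - 1 := by
    have : 2 ^ 1 ≤ 2 ^ (K - 1) := Nat.pow_le_pow_right (by norm_num) (by omega)
    omega
  -- bound for log x
  push Not at hkf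
  rw [Nat.sqrt_lt', Nat.div_lt_iff_lt_mul (by positivity)] at hkf
  simp only [Nat.add_sub_cancel] at hkf
  have hx0 : (0 : ℝ) < x := by exact_mod_cast (by omega : 0 < x)
  have hpw : (10 * 3 ^ (2 ^ K - 1)) ^ 2 * (3 * 4 ^ (K + 1)) = 1200 * 4 ^ K * 9 ^ (2 ^ K - 1) := by
    rw [mul_pow, ← pow_mul, mul_comm (2 ^ K - 1) 2, pow_mul]; ring
  rw [hpw] at hkf
  have hxlt : (x : ℝ) ≤ 600 * 4 ^ K * 9 ^ (2 ^ K - 1) := by
    have : x ≤ 600 * 4 ^ K * 9 ^ (2 ^ K - 1) := by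
      have e : 1200 * 4 ^ K * 9 ^ (2 ^ K - 1) = 2 * (600 * 4 ^ K * 9 ^ (2 ^ K - 1)) := by ring
      omega
    exact_mod_cast this
  have hlog : Real.log x ≤ Real.log 600 + K * Real.log 4 + ((2 ^ K - 1 : ℕ) : ℝ) * Real.log 9 := by
    have h1 := Real.log_le_log hx0 hxlt
    rw [Real.log_mul (by positivity) (by positivity), Real.log_mul (by positivity) (by positivity),
      Real.log_pow, Real.log_pow] at h1
    exact h1
  have hl2 := Real.log_two_lt_d9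
  have hl2' := Real.log_two_gt_d9
  have hl600 := log600
  have hl9 := log9
  have hKle : (K : ℝ) ≤ 2 ^ K / 2 := by
    have h1 : K - 1 < 2 ^ (K - 1) := Nat.lt_two_pow_self
    have h2 : 2 ^ K = 2 * 2 ^ (K - 1) := by
      obtain ⟨t, rfl⟩ : ∃ t, K = t + 1 := ⟨K - 1, by omega⟩
      rw [Nat.add_sub_cancel, pow_succ']
    have h3 : 2 * K ≤ 2 ^ K := by omega
    have h4 : 2 * (K : ℝ) ≤ 2 ^ K := by exact_mod_cast h3
    linarith
  have h4K : (4 : ℝ) ≤ 2 ^ K := by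
    calc (4 : ℝ) = 2 ^ 2 := by norm_num
      _ ≤ 2 ^ K := pow_le_pow_right₀ (by norm_num) hK2
  have hcast : ((2 ^ K - 1 : ℕ) : ℝ) = 2 ^ K - 1 := by
    rw [Nat.cast_sub Nat.one_le_two_pow]; push_cast; ring
  rw [hcast, log4] at hlog
  have hlog2 : Real.log x ≤ 4.1 * 2 ^ K := by
    have e1 : ((2 : ℝ) ^ K - 1) * Real.log 9 ≤ (2 ^ K - 1) * (16 / 5 * Real.log 2) := by
      apply mul_le_mul_of_nonneg_left _ (by linarith)
      linarith
    have e2 : (K : ℝ) * (2 * Real.log 2) ≤ 2 ^ K / 2 * (2 * Real.log 2) := by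
      apply mul_le_mul_of_nonneg_right hKle (by linarith)
    have e3 : Real.log x ≤ Real.log 2 * (6.8 + 4.2 * 2 ^ K) := by nlinarith
    have e4 : Real.log 2 * (6.8 + 4.2 * 2 ^ K) ≤ 0.6931471808 * (6.8 + 4.2 * 2 ^ K) := by
      apply mul_le_mul_of_nonneg_right hl2.le (by positivity)
    nlinarith
  have hlog0 : 0 ≤ Real.log x := Real.log_nonneg (by exact_mod_cast (by omega : 1 ≤ x))
  have h4pow : (4 : ℕ) ^ K = 2 ^ (2 * K) := by rw [pow_mul]; norm_num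
  have hlogsq : Real.log x ^ 2 ≤ (4.1 * 2 ^ K) ^ 2 := pow_le_pow_left₀ hlog0 hlog2 2
  have hbi : b ≤ 2 * K := by
    by_contra hcon
    push Not at hcon
    have h1 : (2 : ℝ) ^ (2 * K) ≤ 2 ^ b := pow_le_pow_right₀ (by norm_num) hcon.le
    have h2 : (2 : ℝ) ^ (2 * K) = (2 ^ K) ^ 2 := by rw [mul_comm, pow_mul]
    rw [h2] at h1
    have h3 : (0 : ℝ) < (2 ^ K) ^ 2 := by positivity
    nlinarith
  have hB := large_boundG pp 1 (2 * K) (4 ^ K) m (2 ^ (K - 1) - 1) b ρ x _ h4pow hbi hm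
    (fun n => partition_identity K m n hm) ha
    (fun r hr => coeff_vanish_of modular_equation K m r hK2 hm hr) rfl hcK
  refine le_trans ?_ hB
  have hr : Real.sqrt ((4 ^ K : ℕ) : ℝ) = 2 ^ K := by
    rw [show ((4 ^ K : ℕ) : ℝ) = (2 ^ K) ^ 2 by
      push_cast; rw [← pow_mul, mul_comm, pow_mul]; norm_num]
    exact Real.sqrt_sq (by positivity)
  rw [hr]
  have hs := Real.sqrt_nonneg (x : ℝ)
  have hq : (0 : ℝ) < 2 ^ b := by positivity
  rw [div_le_div_iff₀ (by positivity) hq]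
  have h1 : Real.sqrt x * Real.log x ≤ Real.sqrt x * (4.1 * 2 ^ K) :=
    mul_le_mul_of_nonneg_left hlog2 hs
  have h2 : 0 ≤ Real.sqrt x * 2 ^ K := by positivity
  have h4 : Real.sqrt x * Real.log x ≤ 0.167 * 2 ^ K * Real.sqrt x * 25 := by nlinarith
  calc Real.sqrt x * Real.log x * 2 ^ b
      ≤ 0.167 * 2 ^ K * Real.sqrt x * 25 * 2 ^ b := mul_le_mul_of_nonneg_right h4 hq.le
    _ = 0.167 * 2 ^ K * Real.sqrt x * (25 * 2 ^ b) := by ring

end Pool.Agent.H413R3.Part
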