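import Pool.Agent.H397R2.PP.VAN
import Pool.Agent.H397R2.PP.TH

set_option autoImplicit false

/-!
# Vanishing of the coefficients of an odd power of the discriminant modulo 2
-/

namespace Pool.Agent.H413R3.Part

open PowerSeries Pool.Agent.H397R2.PP

theorem cont_le (i j : ℕ) (h : j < 4 ^ i) : cont j + 2 ≤ 2 ^ (i + 1) := by
  induction i generalizing j with
  | zero =>
    have : j = 0 := by simpa using h
    subst this
    rw [NIL.cont_zero]; norm_num
  | succ i ih =>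
    obtain ⟨m, d, hd, rfl⟩ := NIL.split4 j
    rw [NIL.cont_digit _ _ hd]
    have hm : m < 4 ^ i := by
      rw [pow_succ] at h; omega
    have h1 := ih m hm
    have h2 : wdig d ≤ 2 := by
      unfold wdig
      split_ifs <;> omega
    rw [pow_succ 2 (i + 1)]
    omega

theorem vanish (s m r : ℕ) (hs : 1 ≤ s) (hm : m % 2 = 1) (hm2 : m < 2 * 4 ^ (s - 1))
    (hr : ¬ 3 ∣ r) : coeff (3 ^ (2 ^ s - 1) * r) (Db ^ m) = 0 := by
  obtain ⟨i, rfl⟩ : ∃ i, s = i + 1 := ⟨s - 1, by omega⟩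
  rw [Nat.add_sub_cancel] at hm2
  obtain ⟨j, hj⟩ : ∃ j, m = 2 * j + 1 := ⟨m / 2, by omega⟩
  have hj4 : j < 4 ^ i := by omega
  have hc := cont_le i j hj4
  have H : NIL.T3H := ⟨T3.rec modular_equation, T3.init modular_equation⟩
  have h1 : Db ^ m ∈ NIL.WW (0 + (2 ^ (i + 1) - 1)) := by
    rw [hj]
    apply NIL.WW_mem
    omega
  have h2 := NIL.iter_WW H (2 ^ (i + 1) - 1) 0 h1
  have h3 : NIL.WW 0 = ⊥ := by
    unfold NIL.WW
    rw [Submodule.span_eq_bot]
    rintro φ ⟨j, hj, -⟩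
    exact absurd hj (Nat.not_lt_zero _)
  rw [h3, Submodule.mem_bot] at h2
  have h4 := coeff_iterate_Tp3 (i + 1) r hr (Db ^ m)
  rw [h2, map_zero] at h4
  exact h4.symm

end Pool.Agent.H413R3.Part
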