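import Pool.Agent.H413R3.Part.Count2
import Pool.Agent.H413R3.Part.Van

set_option autoImplicit false

/-!
# Even values of the number of multipartitions: choice of the parameters
-/

namespace Pool.Agent.H413R3.Part

open PowerSeries Pool.Agent.H397R2.PP

theorem log600 : Real.log 600 ≤ 10 * Real.log 2 := by
  rw [show (10 : ℝ) * Real.log 2 = ((10 : ℕ) : ℝ) * Real.log 2 by norm_num, ← Real.log_pow]
  exact Real.log_le_log (by norm_num) (by norm_num)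

theorem log4 : Real.log 4 = 2 * Real.log 2 := by
  rw [show (4 : ℝ) = 2 ^ 2 by norm_num, Real.log_pow]; norm_num

theorem log9 : 5 * Real.log 9 ≤ 16 * Real.log 2 := by
  rw [show (5 : ℝ) * Real.log 9 = ((5 : ℕ) : ℝ) * Real.log 9 by norm_num,
    show (16 : ℝ) * Real.log 2 = ((16 : ℕ) : ℝ) * Real.log 2 by norm_num, ← Real.log_pow,
    ← Real.log_pow]
  exact Real.log_le_log (by norm_num) (by norm_num)

theorem six_mul_le (K : ℕ) (hK : 5 ≤ K) : 6 * K ≤ 2 ^ K := by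
  induction K, hK using Nat.le_induction with
  | base => norm_num
  | succ n hn ih => rw [pow_succ]; omega

/-- the bound for `log x` -/
theorem log_bound (x K : ℕ) (hx : 0 < x) (hK : 5 ≤ K)
    (h : x ≤ 600 * 4 ^ K * 9 ^ (2 ^ (K + 1) - 1)) : Real.log x ≤ 4.9 * 2 ^ K := by
  have hx0 : (0 : ℝ) < x := by exact_mod_cast hx
  have hxlt : (x : ℝ) ≤ 600 * 4 ^ K * 9 ^ (2 ^ (K + 1) - 1) := by exact_mod_cast h
  have h1 := Real.log_le_log hx0 hxlt
  rw [Real.log_mul (by positivity) (by positivity), Real.log_mul (by positivity) (by positivity),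
    Real.log_pow, Real.log_pow] at h1
  have hcast : ((2 ^ (K + 1) - 1 : ℕ) : ℝ) = 2 * 2 ^ K - 1 := by
    rw [Nat.cast_sub Nat.one_le_two_pow]; push_cast; ring
  rw [hcast, log4] at h1
  have hl2 := Real.log_two_lt_d9
  have hl2' := Real.log_two_gt_d9
  have hl600 := log600
  have hl9 := log9
  have hK6 : 6 * (K : ℝ) ≤ 2 ^ K := by exact_mod_cast six_mul_le K hK
  have hW : (32 : ℝ) ≤ 2 ^ K := by
    calc (32 : ℝ) = 2 ^ 5 := by norm_num
      _ ≤ 2 ^ K := pow_le_pow_right₀ (by norm_num) hK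
  set W : ℝ := 2 ^ K with hWdef
  have e1 : (2 * W - 1) * Real.log 9 ≤ (2 * W - 1) * (16 / 5 * Real.log 2) := by
    apply mul_le_mul_of_nonneg_left _ (by linarith)
    linarith
  have e2 : (K : ℝ) * (2 * Real.log 2) ≤ W / 6 * (2 * Real.log 2) := by
    apply mul_le_mul_of_nonneg_right (by linarith) (by linarith)
  have e3 : Real.log x ≤ Real.log 2 * (6.8 + (6.4 + 1 / 3) * W) := by nlinarith
  have e4 : Real.log 2 * (6.8 + (6.4 + 1 / 3) * W) ≤ 0.6931471808 * (6.8 + (6.4 + 1 / 3) * W) := by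
    apply mul_le_mul_of_nonneg_right hl2.le (by positivity)
  nlinarith

/-- **Even values of the number of `t`-multipartitions in progressions modulo powers of two.** -/
theorem main (x t b ρ : ℕ) (hx : 2 ^ 120 ≤ x) (ht : Nat.Coprime t 6)
    (hxt : 50 * (t : ℝ) ≤ Real.log x ^ 2) (hb : 50 * (2 : ℝ) ^ b ≤ Real.log x ^ 2) :
    Real.sqrt x * Real.log x / (50 * 2 ^ b) ≤ ((evenAP (mp t) b ρ x).card : ℝ) := by
  -- residues of `t`
  have ht2 : t % 2 = 1 := by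
    have h1 : Nat.Coprime t 2 := Nat.Coprime.coprime_dvd_right (by norm_num) ht
    rcases Nat.mod_two_eq_zero_or_one t with h | h
    · exfalso
      have : 2 ∣ Nat.gcd t 2 := Nat.dvd_gcd (Nat.dvd_of_mod_eq_zero h) (dvd_refl 2)
      rw [h1] at this
      norm_num at this
    · exact h
  have ht3 : t % 3 ≠ 0 := by
    have h1 : Nat.Coprime t 3 := Nat.Coprime.coprime_dvd_right (by norm_num) ht
    intro h
    have : 3 ∣ Nat.gcd t 3 := Nat.dvd_gcd (Nat.dvd_of_mod_eq_zero h) (dvd_refl 3)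
    rw [h1] at this
    norm_num at this
  obtain ⟨δ, hδ1, hδ⟩ : ∃ δ, δ ≤ 1 ∧ t % 3 = δ + 1 := ⟨t % 3 - 1, by omega, by omega⟩
  -- `2 ^ (2 s - δ) ≡ t (mod 3)`
  have hmod : ∀ s, 1 ≤ s → 2 ^ (2 * s - δ) % 3 = t % 3 := by
    intro s hs
    have h4 : ∀ u, 2 ^ (2 * u) % 3 = 1 := by
      intro u
      rw [pow_mul, Nat.pow_mod]; simp
    rcases (by omega : δ = 0 ∨ δ = 1) with h | h
    · subst h
      rw [hδ, Nat.sub_zero, h4]
    · subst h
      obtain ⟨u, rfl⟩ : ∃ u, s = u + 1 := ⟨s - 1, by omega⟩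
      rw [show 2 * (u + 1) - 1 = 2 * u + 1 by omega, pow_succ, Nat.mul_mod, h4, hδ]
  obtain ⟨s0, hs0⟩ : ∃ s0, s0 = 5 := ⟨5, rfl⟩
  have hxpos : 0 < x := lt_of_lt_of_le (by positivity) hx
  replace hx : 3 * 2 ^ (2 * s0) * (10 * 3 ^ (2 ^ s0 - 1)) ^ 2 ≤ x := by
    refine le_trans ?_ hx
    rw [hs0]
    norm_num
  -- the first `k` that fails
  have hex : ∃ k, s0 < k ∧
      ¬ (10 * 3 ^ (2 ^ k - 1) ≤ Nat.sqrt (2 * x / (3 * 2 ^ (2 * k - δ)))) := by
    refine ⟨x + s0 + 3, by omega, ?_⟩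
    push Not
    have h1 : 2 * x / (3 * 2 ^ (2 * (x + s0 + 3) - δ)) = 0 := by
      apply Nat.div_eq_of_lt
      have h2 : 2 * (x + s0 + 3) - δ < 2 ^ (2 * (x + s0 + 3) - δ) := Nat.lt_two_pow_self
      omega
    rw [h1]; simp
  classical
  obtain ⟨hk2, hkf⟩ := Nat.find_spec hex
  have hmin := fun j (hj : j < Nat.find hex) => Nat.find_min hex hj
  set k1 := Nat.find hex with hk1
  obtain ⟨K, hK⟩ : ∃ K, k1 = K + 1 := ⟨k1 - 1, by omega⟩
  rw [hK] at hkf hk2 hmin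
  have hKs : s0 ≤ K := by omega
  have hcK : 10 * 3 ^ (2 ^ K - 1) ≤ Nat.sqrt (2 * x / (3 * 2 ^ (2 * K - δ))) := by
    rcases Nat.eq_or_lt_of_le hKs with h | h
    · rw [← h, Nat.le_sqrt', Nat.le_div_iff_mul_le (by positivity)]
      have h1 : 2 ^ (2 * s0 - δ) ≤ 2 ^ (2 * s0) := Nat.pow_le_pow_right (by norm_num) (by omega)
      calc (10 * 3 ^ (2 ^ s0 - 1)) ^ 2 * (3 * 2 ^ (2 * s0 - δ))
          ≤ (10 * 3 ^ (2 ^ s0 - 1)) ^ 2 * (3 * 2 ^ (2 * s0)) :=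
            Nat.mul_le_mul_left _ (Nat.mul_le_mul_left _ h1)
        _ = 3 * 2 ^ (2 * s0) * (10 * 3 ^ (2 ^ s0 - 1)) ^ 2 := by ring
        _ ≤ 2 * x := by omega
    · have := hmin K (by omega)
      by_contra hcon
      exact this ⟨h, hcon⟩
  -- `m`
  set i := 2 * K - δ with hi
  have h2K : 2 ^ i * 2 ^ δ = 4 ^ K := by
    rw [← pow_add, hi, show 2 * K - δ + δ = 2 * K by omega, pow_mul]; norm_num
  have hδle : 2 ^ δ ≤ 2 := by
    rcases (by omega : δ = 0 ∨ δ = 1) with h | h <;> subst h <;> norm_num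
  have hδge : 1 ≤ 2 ^ δ := Nat.one_le_two_pow
  have h4K : 4 ^ K = 4 * 4 ^ (K - 1) := by
    obtain ⟨u, hu⟩ : ∃ u, K = u + 1 := ⟨K - 1, by omega⟩
    rw [hu, Nat.add_sub_cancel, pow_succ']
  have hMle : 2 ^ i ≤ 4 ^ K := by
    rw [← h2K]; exact Nat.le_mul_of_pos_right _ hδge
  have hMge : 4 ^ K ≤ 2 * 2 ^ i := by
    rw [← h2K, mul_comm 2]; exact Nat.mul_le_mul_left _ hδle
  have hi1 : 1 ≤ i := by omega
  -- bound for `log x`
  push Not at hkf
  rw [Nat.sqrt_lt', Nat.div_lt_iff_lt_mul (by positivity)] at hkf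
  have hpw : (10 * 3 ^ (2 ^ (K + 1) - 1)) ^ 2 * (3 * 2 ^ (2 * (K + 1) - δ)) =
      1200 * 2 ^ i * 9 ^ (2 ^ (K + 1) - 1) := by
    rw [show 2 * (K + 1) - δ = i + 2 by omega, mul_pow, ← pow_mul,
      mul_comm (2 ^ (K + 1) - 1) 2, pow_mul, pow_add]
    ring
  rw [hpw] at hkf
  have hlog : Real.log x ≤ 4.9 * 2 ^ K := by
    apply log_bound x K hxpos (by omega)
    have h1 : 600 * 2 ^ i * 9 ^ (2 ^ (K + 1) - 1) ≤ 600 * 4 ^ K * 9 ^ (2 ^ (K + 1) - 1) :=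
      Nat.mul_le_mul_right _ (Nat.mul_le_mul_left _ hMle)
    have h2 : 1200 * 2 ^ i * 9 ^ (2 ^ (K + 1) - 1) =
      2 * (600 * 2 ^ i * 9 ^ (2 ^ (K + 1) - 1)) := by ring
    omega
  have hlog0 : 0 ≤ Real.log x := Real.log_nonneg (by exact_mod_cast hxpos)
  have hMgeR : (4 : ℝ) ^ K ≤ 2 * 2 ^ i := by exact_mod_cast hMge
  have h4W : (4 : ℝ) ^ K = (2 ^ K) ^ 2 := by rw [← pow_mul, mul_comm, pow_mul]; norm_num
  set W : ℝ := 2 ^ K with hW
  have hW0 : 0 < W := by positivity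
  rw [h4W] at hMgeR
  have hlogsq : Real.log x ^ 2 ≤ (4.9 * W) ^ 2 := pow_le_pow_left₀ hlog0 hlog 2
  have hti : t < 2 ^ i := by
    have h1 : (0 : ℝ) < 2 ^ i := by positivity
    have h2 : (t : ℝ) < 2 ^ i := by nlinarith
    exact_mod_cast h2
  obtain ⟨m, hm⟩ : ∃ m, 3 * m + t = 2 ^ i := by
    have h1 := hmod K (by omega)
    rw [← hi] at h1
    exact ⟨(2 ^ i - t) / 3, by omega⟩
  have hm2 : m % 2 = 1 := by
    have h1 : 2 ^ i % 2 = 0 := by
      obtain ⟨u, hu⟩ : ∃ u, i = u + 1 := ⟨i - 1, by omega⟩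
      rw [hu, pow_succ]; omega
    omega
  have hmlt : m < 2 * 4 ^ (K - 1) := by omega
  have hbi : b ≤ i := by
    by_contra hcon
    push Not at hcon
    have h1 : (2 : ℝ) ^ i ≤ 2 ^ b := pow_le_pow_right₀ (by norm_num) hcon.le
    have h2 : Real.log x ^ 2 ≤ (4.9 * W) ^ 2 := pow_le_pow_left₀ hlog0 hlog 2
    nlinarith
  have ha : 1 ≤ 2 ^ K - 1 := by
    have : 2 ^ 1 ≤ 2 ^ K := Nat.pow_le_pow_right (by norm_num) (by omega)
    omega
  have hB := large_boundG (mp t) t i (2 ^ i) m (2 ^ K - 1) b ρ x _ rfl hbi hm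
    (fun n => identity t m i n hm) ha (fun r hr => vanish K m r (by omega) hm2 hmlt hr) rfl hcK
  refine le_trans ?_ hB
  have hr : 0.7 * W ≤ Real.sqrt ((2 ^ i : ℕ) : ℝ) := by
    apply Real.le_sqrt_of_sq_le
    push_cast
    nlinarith
  have hs := Real.sqrt_nonneg (x : ℝ)
  have hq : (0 : ℝ) < 2 ^ b := by positivity
  rw [div_le_div_iff₀ (by positivity) hq]
  have h1 : Real.sqrt x * Real.log x ≤ Real.sqrt x * (4.9 * W) :=
    mul_le_mul_of_nonneg_left hlog hs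
  have h2 : 0.7 * W * Real.sqrt x ≤ Real.sqrt ((2 ^ i : ℕ) : ℝ) * Real.sqrt x :=
    mul_le_mul_of_nonneg_right hr hs
  have h3 : 0 ≤ Real.sqrt x * W := by positivity
  have h4 : Real.sqrt x * Real.log x ≤ 0.167 * Real.sqrt ((2 ^ i : ℕ) : ℝ) * Real.sqrt x * 50 := by
    nlinarith
  calc Real.sqrt x * Real.log x * 2 ^ b
      ≤ 0.167 * Real.sqrt ((2 ^ i : ℕ) : ℝ) * Real.sqrt x * 50 * 2 ^ b :=
        mul_le_mul_of_nonneg_right h4 hq.le
    _ = 0.167 * Real.sqrt ((2 ^ i : ℕ) : ℝ) * Real.sqrt x * (50 * 2 ^ b) := by ring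

end Pool.Agent.H413R3.Part
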